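import Pool.Agent.Q243.Multifuncoid

/-!
The poset of completary multifuncoids of the form `(𝒫 ℕ)^ℕ` is not atomic.
-/

set_option autoImplicit false

namespace Pool.Agent.Results.MP_2da57a_co.NotAtomic

open Pool.Agent.Q243.Multifuncoid

/-- Some nonempty completary multifuncoid of the form `(𝒫 ℕ)^ℕ` has no atom below it. -/
theorem result : ¬ IsAtomic (CMF ℕ ℕ) := by
  intro h
  rcases h.eq_bot_or_exists_atom_le bigElt with h1 | ⟨a, ha, hle⟩
  · exact bigElt_ne_bot h1
  · exact no_atom ha hle

end Pool.Agent.Results.MP_2da57a_co.NotAtomic
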