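import Pool.Agent.Q243.Multifuncoid

/-!
The poset of completary multifuncoids of the form `(𝒫 ℕ)^ℕ` is not atomistic.
-/

set_option autoImplicit false

namespace Pool.Agent.Results.MP_2da57a_co.NotAtomistic

open Pool.Agent.Q243.Multifuncoid

/-- Some completary multifuncoid of the form `(𝒫 ℕ)^ℕ` is not the least upper bound of the atoms
below it. -/
theorem result : ∃ f : CMF ℕ ℕ, ¬ IsLUB {a | IsAtom a ∧ a ≤ f} f := by
  refine ⟨bigElt, fun h => bigElt_ne_bot ?_⟩
  have h1 : (⊥ : CMF ℕ ℕ) ∈ upperBounds {a | IsAtom a ∧ a ≤ bigElt} := by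
    rintro a ⟨ha, hle⟩
    exact absurd hle (no_atom ha)
  exact le_bot_iff.1 (h.2 h1)

end Pool.Agent.Results.MP_2da57a_co.NotAtomistic
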